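import Pool.Agent.LRY.Stmts
import Pool.Agent.Helper42_LRG.TRE
import Pool.Agent.Helper41_LRG.NIZ
import Pool.Agent.Helper74_LRN.DIR

/-!
# Squad LRY, row NCQ: the fields are not CM
-/

set_option autoImplicit false

open Polynomial NumberField
open Pool.Agent.LRG Pool.Agent.LRN
open Pool.Agent.LRG.E (Ro Fa fac st rep mu ex)

namespace Pool.Agent.LRY.H4

open Pool.Agent.LRY

theorem wr_add {r₂ : ℕ} (a : Fa 0 r₂ → ℤ) (c : Fin r₂ → ℤ) (o : Ro 0 r₂) :
    wr a c o + wr a c (st o) = 2 * (a (fac o) : ℂ) := by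
  rcases o with i | ⟨j, b⟩
  · exact i.elim0
  · cases b <;> simp [wr, st, fac] <;> ring

theorem st_ne {r₂ : ℕ} (o : Ro 0 r₂) : st o ≠ o := by
  rcases o with i | ⟨j, b⟩
  · exact i.elim0
  · cases b <;> simp [st]

theorem fac_eq {r₂ : ℕ} (o o' : Ro 0 r₂) (h : fac o = fac o') : o' = o ∨ o' = st o := by
  rcases o with i | ⟨j, b⟩
  · exact i.elim0
  rcases o' with i | ⟨j', b'⟩
  · exact i.elim0
  · have hj : j = j' := by simpa [fac] using h
    subst hj
    cases b <;> cases b' <;> simp [st]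

theorem ex_inj {r₂ : ℕ} (k k' : Fa 0 r₂) (h : ex k = ex k') : k = k' := by
  rcases k with i | j
  · exact i.elim0
  rcases k' with i | j'
  · exact i.elim0
  · simp only [ex, Sum.elim_inr] at h
    congr 1
    exact Fin.ext (by omega)

theorem ex_lt {r₂ : ℕ} (k : Fa 0 r₂) : ex k + 1 ≤ r₂ := by
  rcases k with i | j
  · exact i.elim0
  · simp only [ex, Sum.elim_inr]
    have := j.2
    omega

theorem par_far {r₂ N : ℕ} {a : Fa 0 r₂ → ℤ} {c : Fin r₂ → ℤ} (hp : Par 0 r₂ N a c)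
    (k k' : Fa 0 r₂) (h : k ≠ k') : 2 * (N : ℤ) ≤ |a k - a k'| := by
  have hne : ex k ≠ ex k' := fun he => h (ex_inj k k' he)
  have h1 := hp.alo k
  have h2 := hp.ahi k
  have h3 := hp.alo k'
  have h4 := hp.ahi k'
  have hN : (0 : ℤ) ≤ N := Int.natCast_nonneg N
  rcases Nat.lt_or_gt_of_ne hne with hlt | hlt
  · have h5 : (ex k : ℤ) + 1 ≤ ex k' := by exact_mod_cast hlt
    rw [abs_sub_comm]
    refine le_trans ?_ (le_abs_self _)
    nlinarith [mul_le_mul_of_nonneg_right h5 hN]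
  · have h5 : (ex k' : ℤ) + 1 ≤ ex k := by exact_mod_cast hlt
    refine le_trans ?_ (le_abs_self _)
    nlinarith [mul_le_mul_of_nonneg_right h5 hN]

theorem par_near {r₂ N : ℕ} {a : Fa 0 r₂ → ℤ} {c : Fin r₂ → ℤ} (hp : Par 0 r₂ N a c)
    (k k' : Fa 0 r₂) : |a k - a k'| ≤ 3 * (r₂ : ℤ) * N := by
  have h1 := hp.alo k
  have h2 := hp.ahi k
  have h3 := hp.alo k'
  have h4 := hp.ahi k'
  have hN : (0 : ℤ) ≤ N := Int.natCast_nonneg N
  have h5 : (ex k : ℤ) + 1 ≤ r₂ := by exact_mod_cast ex_lt k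
  have h6 : (ex k' : ℤ) + 1 ≤ r₂ := by exact_mod_cast ex_lt k'
  have h7 : (0 : ℤ) ≤ ex k := Int.natCast_nonneg _
  have h8 : (0 : ℤ) ≤ ex k' := Int.natCast_nonneg _
  rw [abs_le]
  constructor
  · nlinarith [mul_le_mul_of_nonneg_right h6 hN, mul_nonneg h7 hN]
  · nlinarith [mul_le_mul_of_nonneg_right h5 hN, mul_nonneg h8 hN]

theorem isInt {r₁ r₂ N : ℕ} {a : Fa r₁ r₂ → ℤ} {c : Fin r₂ → ℤ} {x : Ro r₁ r₂ → ℂ} {K : Type}
    [Field K] [NumberField K] {θ : K} {e : Ro r₁ r₂ ≃ (K →+* ℂ)}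
    (h : Fdq r₁ r₂ N a c x K θ e) : IsIntegral ℤ θ := by
  refine ⟨Gq a c - 1, ?_, h.root⟩
  have hinj : Function.Injective (Int.castRingHom ℂ) := (Int.castRingHom ℂ).injective_int
  rw [Function.Injective.monic_map_iff hinj, h.rts.prod]
  exact monic_prod_of_monic _ _ fun o _ => monic_X_sub_C _

/-- the two embeddings over a real embedding of `E` -/
theorem pair {r₂ N : ℕ} {a : Fa 0 r₂ → ℤ} {c : Fin r₂ → ℤ} {x : Ro 0 r₂ → ℂ} {K : Type}
    [Field K] [NumberField K] {θ : K} {e : Ro 0 r₂ ≃ (K →+* ℂ)}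
    (h : Fdq 0 r₂ N a c x K θ e) (E : IntermediateField ℚ K) (h2 : Module.finrank E K = 2)
    (τ : E →+* ℂ) (hτ : ComplexEmbedding.conjugate τ = τ) :
    ∃ o : Ro 0 r₂, (e o).comp (algebraMap E K) = τ ∧
      ‖τ (Algebra.trace E K θ) - 2 * (a (fac o) : ℂ)‖ ≤ 2 / (N : ℝ) ^ (2 * r₂ - 1) := by
  classical
  obtain ⟨h3, h4⟩ := Pool.Agent.LRG.H42.tre K E τ θ
    (Finset.univ.filter fun σ : K →+* ℂ => σ.comp (algebraMap E K) = τ) (by simp)
  rw [h2] at h4
  obtain ⟨σ, hσ⟩ : (Finset.univ.filter fun σ : K →+* ℂ => σ.comp (algebraMap E K) = τ).Nonempty :=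
    Finset.card_pos.1 (by omega)
  have hσ' : σ.comp (algebraMap E K) = τ := by simpa using hσ
  obtain ⟨o, rfl⟩ := e.surjective σ
  have hst : (e (st o)).comp (algebraMap E K) = τ := by
    rw [← h.cj o, ← hτ, ← hσ']
    ext z
    simp [ComplexEmbedding.conjugate]
  have hne : e o ≠ e (st o) := fun he => st_ne o (e.injective he).symm
  have hS : (Finset.univ.filter fun σ : K →+* ℂ => σ.comp (algebraMap E K) = τ) =
      {e o, e (st o)} := by
    symm
    apply Finset.eq_of_subset_of_card_le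
    · intro σ hσ
      simp only [Finset.mem_insert, Finset.mem_singleton] at hσ
      rcases hσ with rfl | rfl
      · simpa using hσ'
      · simpa using hst
    · rw [h4, Finset.card_pair hne]
  refine ⟨o, hσ', ?_⟩
  rw [h3, hS, Finset.sum_pair hne, h.emb, h.emb, ← wr_add a c o]
  have h5 : x o + x (st o) - (wr a c o + wr a c (st o)) =
      (x o - wr a c o) + (x (st o) - wr a c (st o)) := by ring
  rw [h5]
  have h6 := h.rts.near o
  have h7 := h.rts.near (st o)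
  have h8 : 0 + 2 * r₂ - 1 = 2 * r₂ - 1 := by omega
  rw [h8] at h6 h7
  calc _ ≤ ‖x o - wr a c o‖ + ‖x (st o) - wr a c (st o)‖ := norm_add_le _ _
    _ ≤ 1 / (N : ℝ) ^ (2 * r₂ - 1) + 1 / (N : ℝ) ^ (2 * r₂ - 1) := add_le_add h6 h7
    _ = 2 / (N : ℝ) ^ (2 * r₂ - 1) := by ring

theorem core {r₂ N : ℕ} (hr : 3 ≤ r₂) (hN : 2 * (7 * r₂) ^ r₂ + 3 ≤ N) {a : Fa 0 r₂ → ℤ}
    {c : Fin r₂ → ℤ} {x : Ro 0 r₂ → ℂ} {K : Type}
    [Field K] [NumberField K] {θ : K} {e : Ro 0 r₂ ≃ (K →+* ℂ)}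
    (h : Fdq 0 r₂ N a c x K θ e) (E : IntermediateField ℚ K) (h2 : Module.finrank E K = 2)
    (hE : Module.finrank ℚ E = r₂) (hreal : ∀ τ : E →+* ℂ, ComplexEmbedding.conjugate τ = τ) :
    False := by
  classical
  have hcard : Fintype.card (E →+* ℂ) = r₂ := by
    rw [NumberField.Embeddings.card, hE]
  obtain ⟨τ₁, τ₂, h12⟩ := Fintype.exists_pair_of_one_lt_card (α := E →+* ℂ) (by omega)
  obtain ⟨o₁, ho₁, hb₁⟩ := pair h E h2 τ₁ (hreal τ₁)
  obtain ⟨o₂, ho₂, hb₂⟩ := pair h E h2 τ₂ (hreal τ₂)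
  have hk : fac o₁ ≠ fac o₂ := by
    intro hf
    rcases fac_eq o₁ o₂ hf with h3 | h3
    · apply h12
      rw [← ho₁, ← ho₂, h3]
    · apply h12
      rw [← ho₁, ← ho₂, h3, ← h.cj o₁]
      have := hreal ((e o₁).comp (algebraMap E K))
      rw [← this]
      ext z
      simp [ComplexEmbedding.conjugate]
  set s : E := Algebra.trace E K θ with hs
  have hNR : (3 : ℝ) ≤ N := by
    have : 3 ≤ N := by omega
    exact_mod_cast this
  have hN1 : (1 : ℝ) ≤ N := by linarith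
  have hpow : (N : ℝ) ≤ (N : ℝ) ^ (2 * r₂ - 1) := by
    calc (N : ℝ) = (N : ℝ) ^ 1 := (pow_one _).symm
      _ ≤ (N : ℝ) ^ (2 * r₂ - 1) := pow_le_pow_right₀ hN1 (by omega)
  have hpos : (0 : ℝ) < (N : ℝ) ^ (2 * r₂ - 1) := by positivity
  have hsmall : 2 / (N : ℝ) ^ (2 * r₂ - 1) < 1 := by
    rw [div_lt_one hpos]; linarith
  set y : E := s - ((2 * a (fac o₁) : ℤ) : E) with hy
  have hyint : IsIntegral ℤ y := by
    apply IsIntegral.sub
    · exact Algebra.isIntegral_trace (isInt h)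
    · exact isIntegral_algebraMap (x := (2 * a (fac o₁) : ℤ))
  have hτy : ∀ τ : E →+* ℂ, τ y = τ s - 2 * (a (fac o₁) : ℂ) := by
    intro τ
    rw [hy, map_sub, map_intCast]
    push_cast
    ring
  have hother : ∀ τ : E →+* ℂ, ‖τ y‖ ≤ 7 * r₂ * N := by
    intro τ
    obtain ⟨o, ho, hb⟩ := pair h E h2 τ (hreal τ)
    rw [hτy]
    have h5 : τ s - 2 * (a (fac o₁) : ℂ) = (τ s - 2 * (a (fac o) : ℂ)) +
        2 * ((a (fac o) - a (fac o₁) : ℤ) : ℂ) := by push_cast; ring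
    rw [h5]
    have h6 : ‖(2 : ℂ) * ((a (fac o) - a (fac o₁) : ℤ) : ℂ)‖ ≤ 2 * (3 * r₂ * N) := by
      rw [norm_mul, Complex.norm_ofNat, Complex.norm_intCast]
      have h7 := par_near h.par (fac o) (fac o₁)
      have h8 : |((a (fac o) - a (fac o₁) : ℤ) : ℝ)| ≤ 3 * (r₂ : ℝ) * N := by
        have : ((|a (fac o) - a (fac o₁)| : ℤ) : ℝ) ≤ ((3 * (r₂ : ℤ) * N : ℤ) : ℝ) := by
          exact_mod_cast h7
        push_cast at this
        push_cast
        exact this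
      linarith
    have hrN : (1 : ℝ) ≤ (r₂ : ℝ) * N := by
      have : (3 : ℝ) ≤ r₂ := by exact_mod_cast hr
      nlinarith
    calc _ ≤ ‖τ s - 2 * (a (fac o) : ℂ)‖ + ‖(2 : ℂ) * ((a (fac o) - a (fac o₁) : ℤ) : ℂ)‖ :=
          norm_add_le _ _
      _ ≤ 1 + 2 * (3 * r₂ * N) := add_le_add (hb.trans hsmall.le) h6
      _ ≤ 7 * r₂ * N := by nlinarith
  have hprod : ‖∏ τ : E →+* ℂ, τ y‖ < 1 := by
    rw [norm_prod, ← Finset.mul_prod_erase Finset.univ _ (Finset.mem_univ τ₁)]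
    have h5 : ∏ τ ∈ Finset.univ.erase τ₁, ‖τ y‖ ≤ (7 * r₂ * N : ℝ) ^ (r₂ - 1) := by
      calc _ ≤ ∏ τ ∈ Finset.univ.erase τ₁, (7 * r₂ * N : ℝ) :=
            Finset.prod_le_prod (fun τ _ => norm_nonneg _) fun τ _ => hother τ
        _ = (7 * r₂ * N : ℝ) ^ (r₂ - 1) := by
            rw [Finset.prod_const, Finset.card_erase_of_mem (Finset.mem_univ _),
              Finset.card_univ, hcard]
    have h6 : ‖τ₁ y‖ ≤ 2 / (N : ℝ) ^ (2 * r₂ - 1) := by
      rw [hτy]; exact hb₁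
    have h7 : (0 : ℝ) ≤ (7 * r₂ * N : ℝ) ^ (r₂ - 1) := by positivity
    calc _ ≤ 2 / (N : ℝ) ^ (2 * r₂ - 1) * (7 * r₂ * N : ℝ) ^ (r₂ - 1) :=
          mul_le_mul h6 h5 (Finset.prod_nonneg fun τ _ => norm_nonneg _) (by positivity)
      _ < 1 := by
          rw [div_mul_eq_mul_div, div_lt_one hpos, mul_pow]
          have h8 : (N : ℝ) ^ (2 * r₂ - 1) = (N : ℝ) ^ (r₂ - 1) * (N : ℝ) ^ r₂ := by
            rw [← pow_add]; congr 1; omega
          rw [h8]
          have h9 : 2 * (7 * (r₂ : ℝ)) ^ (r₂ - 1) < (N : ℝ) ^ r₂ := by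
            have h10 : (7 * (r₂ : ℝ)) ^ (r₂ - 1) ≤ (7 * (r₂ : ℝ)) ^ r₂ := by
              apply pow_le_pow_right₀ _ (by omega)
              have : (3 : ℝ) ≤ r₂ := by exact_mod_cast hr
              linarith
            have h11 : 2 * (7 * (r₂ : ℝ)) ^ r₂ + 3 ≤ N := by exact_mod_cast hN
            have h12 : (N : ℝ) ≤ (N : ℝ) ^ r₂ := by
              calc (N : ℝ) = (N : ℝ) ^ 1 := (pow_one _).symm
                _ ≤ (N : ℝ) ^ r₂ := pow_le_pow_right₀ hN1 (by omega)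
            linarith
          have h13 : (0 : ℝ) < (N : ℝ) ^ (r₂ - 1) := by positivity
          calc 2 * ((7 * (r₂ : ℝ)) ^ (r₂ - 1) * (N : ℝ) ^ (r₂ - 1))
              = (N : ℝ) ^ (r₂ - 1) * (2 * (7 * (r₂ : ℝ)) ^ (r₂ - 1)) := by ring
            _ < (N : ℝ) ^ (r₂ - 1) * (N : ℝ) ^ r₂ := mul_lt_mul_of_pos_left h9 h13
  have hy0 := Pool.Agent.LRG.H41.niz E y hyint hprod
  have h5 : τ₂ s = 2 * (a (fac o₁) : ℂ) := by
    have := hτy τ₂
    rw [hy0, map_zero] at this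
    exact (sub_eq_zero.1 this.symm)
  rw [h5] at hb₂
  have h6 : (2 : ℂ) * (a (fac o₁) : ℂ) - 2 * (a (fac o₂) : ℂ) =
      2 * ((a (fac o₁) - a (fac o₂) : ℤ) : ℂ) := by push_cast; ring
  rw [h6, norm_mul, Complex.norm_ofNat, Complex.norm_intCast] at hb₂
  have h7 := par_far h.par (fac o₁) (fac o₂) hk
  have h8 : 2 * (N : ℝ) ≤ |((a (fac o₁) - a (fac o₂) : ℤ) : ℝ)| := by
    have : ((2 * (N : ℤ) : ℤ) : ℝ) ≤ ((|a (fac o₁) - a (fac o₂)| : ℤ) : ℝ) := by
      exact_mod_cast h7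
    push_cast at this
    push_cast
    exact this
  linarith

theorem ncq : NcqStmt := by
  classical
  intro _ hPLQ r₁ r₂ hr
  refine ⟨2 * (7 * r₂) ^ r₂ + 3, ?_⟩
  intro N hN a c x K _ _ θ e h E hE
  obtain ⟨-, -, hrank⟩ := hPLQ r₁ r₂ N a c x K θ e h
  have h1 : Module.finrank ℚ E * Module.finrank E K = r₁ + 2 * r₂ := by
    rw [Module.finrank_mul_finrank, h.deg]
  have h2 : 2 ≤ Module.finrank E K := by
    have hpos : 0 < Module.finrank E K := Module.finrank_pos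
    have hne : Module.finrank E K ≠ 1 := fun h1 =>
      hE (IntermediateField.finrank_eq_one_iff_eq_top.1 h1)
    omega
  have h3 := Pool.Agent.LRN.H74.rank_le E
  by_contra hcon
  rw [hrank] at hcon
  have h4 : r₁ + r₂ ≤ Module.finrank ℚ E := by omega
  have h5 : (r₁ + r₂) * 2 ≤ r₁ + 2 * r₂ := by
    rw [← h1]
    exact Nat.mul_le_mul h4 h2
  have h6 : r₁ = 0 := by omega
  subst h6
  have h7 : Module.finrank ℚ E = r₂ := by
    by_contra hne
    have h8 : r₂ + 1 ≤ Module.finrank ℚ E := by omega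
    have := Nat.mul_le_mul h8 h2
    rw [h1] at this
    omega
  have h8 : Module.finrank E K = 2 := by
    rw [h7] at h1
    have : r₂ * Module.finrank E K = r₂ * 2 := by rw [h1]; ring
    exact Nat.eq_of_mul_eq_mul_left (by omega) this
  have h9 : Units.rank E + 1 = r₂ := by omega
  -- all places of E are real
  have h10 := InfinitePlace.card_add_two_mul_card_eq_rank E
  have h11 := InfinitePlace.card_eq_nrRealPlaces_add_nrComplexPlaces E
  have h12 : Units.rank E = Fintype.card (InfinitePlace E) - 1 := rfl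
  have h13 : InfinitePlace.nrComplexPlaces E = 0 := by omega
  have hreal : ∀ τ : E →+* ℂ, ComplexEmbedding.conjugate τ = τ := by
    intro τ
    rcases InfinitePlace.isReal_or_isComplex (InfinitePlace.mk τ) with hr' | hc
    · exact InfinitePlace.isReal_mk_iff.1 hr'
    · exfalso
      have : 0 < InfinitePlace.nrComplexPlaces E := by
        unfold InfinitePlace.nrComplexPlaces
        exact Fintype.card_pos_iff.2 ⟨⟨_, hc⟩⟩
      omega
  exact core (by omega) hN h E h8 h7 hreal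

end Pool.Agent.LRY.H4
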